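import Pool.Agent.H88.WR.Targets

set_option autoImplicit false

open Filter Topology Set Pool.Agent.H85.WMP Pool.Agent.H88.WR

namespace Pool.Agent.H17.WR

theorem cau_apply {𝕜 : Type} [RCLike 𝕜] (a : ℕ → 𝕜) (s : Finset ℕ) (k : ℕ) :
    (∑ i ∈ s, Finsupp.single i (a i)) k = if k ∈ s then a k else 0 := by
  rw [Finsupp.finset_sum_apply]
  simp only [Finsupp.single_apply]
  rw [Finset.sum_ite_eq']

theorem pf_CAU (𝕜 : Type) [RCLike 𝕜] : T_CAU 𝕜 := by
  intro M N hM hN a C hC δ hδ
  by_contra hcon
  push Not at hcon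
  choose nxt h1 h2 using hcon
  have hN0 : N 0 = 0 := by
    have h := hN.smul 0 0
    rw [zero_smul, norm_zero, zero_mul] at h
    exact h
  have hC0 : 0 ≤ C := by
    have h := hC 0
    rw [Finset.range_zero, Finset.sum_empty, hN0] at h
    exact h
  have hlt : ∀ n, n < nxt n := by
    intro n
    rcases (h1 n).lt_or_eq with h | h
    · exact h
    · exfalso
      have h3 := h2 n
      rw [← h, Finset.Ico_self, Finset.sum_empty, hN0] at h3
      linarith
  obtain ⟨p, hp0, hps⟩ : ∃ p : ℕ → ℕ, p 0 = 0 ∧ ∀ j, p (j + 1) = nxt (p j) :=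
    ⟨fun j => nxt^[j] 0, rfl, fun j => Function.iterate_succ_apply' nxt j 0⟩
  have hpm : StrictMono p := strictMono_nat_of_lt_succ fun j => by rw [hps]; exact hlt _
  have hblk : ∀ j, δ < N (∑ i ∈ Finset.Ico (p j) (p (j + 1)), Finsupp.single i (a i)) := by
    intro j
    rw [hps]
    exact h2 (p j)
  obtain ⟨q, hq⟩ := exists_nat_gt (2 * C / δ)
  have hq' : 2 * C < q * δ := by rwa [div_lt_iff₀ hδ] at hq
  obtain ⟨A, hA⟩ : ∃ A : Finset ℕ, A = (Finset.Ico q (2 * q)).image p := ⟨_, rfl⟩
  have hAM : A ∈ M := by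
    apply hM.sch A q
    · intro b hb
      rw [hA] at hb
      obtain ⟨l, hl, rfl⟩ := Finset.mem_image.1 hb
      rw [Finset.mem_Ico] at hl
      exact hl.1.trans (hpm.id_le l)
    · rw [hA]
      refine Finset.card_image_le.trans ?_
      rw [Nat.card_Ico]
      omega
  have hadm := hN.adm A hAM (∑ i ∈ Finset.range (p (2 * q)), Finsupp.single i (a i))
  have hcell : ∀ j ∈ Finset.Ico q (2 * q),
      (∑ i ∈ Finset.range (p (2 * q)), Finsupp.single i (a i)).filter (Cell A (p j)) =
      ∑ i ∈ Finset.Ico (p j) (p (j + 1)), Finsupp.single i (a i) := by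
    intro j hj
    rw [Finset.mem_Ico] at hj
    ext i
    rw [Finsupp.filter_apply, cau_apply, cau_apply]
    simp only [Finset.mem_range, Finset.mem_Ico]
    by_cases hi : p j ≤ i ∧ i < p (j + 1)
    · have hc : Cell A (p j) i := by
        refine ⟨hi.1, fun b hb hbi => ?_⟩
        rw [hA] at hb
        obtain ⟨l, hl, rfl⟩ := Finset.mem_image.1 hb
        have h3 : l < j + 1 := hpm.lt_iff_lt.1 (lt_of_le_of_lt hbi hi.2)
        exact hpm.monotone (by omega)
      have h4 : i < p (2 * q) := lt_of_lt_of_le hi.2 (hpm.monotone (by omega))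
      rw [if_pos hc, if_pos h4, if_pos hi]
    · rw [if_neg hi]
      by_cases hc : Cell A (p j) i
      · rw [if_pos hc]
        have h5 : ¬ i < p (2 * q) := by
          intro h6
          apply hi
          refine ⟨hc.1, ?_⟩
          by_contra h7
          push Not at h7
          rcases (by omega : j + 1 < 2 * q ∨ j + 1 = 2 * q) with h8 | h8
          · have h9 : p (j + 1) ∈ A := by
              rw [hA]
              exact Finset.mem_image_of_mem _ (Finset.mem_Ico.2 ⟨by omega, h8⟩)
            have h10 := hc.2 _ h9 h7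
            have h11 := hpm (Nat.lt_succ_self j)
            simp only [Nat.succ_eq_add_one] at h11
            omega
          · rw [h8] at h7
            omega
        rw [if_neg h5]
      · rw [if_neg hc]
  have hsum : ∑ b ∈ A, N ((∑ i ∈ Finset.range (p (2 * q)), Finsupp.single i (a i)).filter
      (Cell A b)) = ∑ j ∈ Finset.Ico q (2 * q),
        N (∑ i ∈ Finset.Ico (p j) (p (j + 1)), Finsupp.single i (a i)) := by
    conv_lhs => rw [hA]
    rw [Finset.sum_image (fun _ _ _ _ h => hpm.injective h)]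
    refine Finset.sum_congr rfl fun j hj => ?_
    rw [← hcell j hj, hA]
  rw [hsum] at hadm
  have h12 : (q : ℝ) * δ ≤ ∑ j ∈ Finset.Ico q (2 * q),
      N (∑ i ∈ Finset.Ico (p j) (p (j + 1)), Finsupp.single i (a i)) := by
    have h13 := Finset.card_nsmul_le_sum (Finset.Ico q (2 * q))
      (fun j => N (∑ i ∈ Finset.Ico (p j) (p (j + 1)), Finsupp.single i (a i))) δ
      (fun j _ => (hblk j).le)
    rw [Nat.card_Ico, nsmul_eq_mul] at h13
    have h14 : 2 * q - q = q := by omega
    rw [h14] at h13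
    exact h13
  have h15 := hC (p (2 * q))
  linarith

end Pool.Agent.H17.WR
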