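import Pool.Agent.H88.WR.Targets

set_option autoImplicit false

open Filter Topology Set Pool.Agent.H85.WMP Pool.Agent.H88.WR

namespace Pool.Agent.H17.WR

section

variable {𝕜 : Type} [RCLike 𝕜] {F : Type} [NormedAddCommGroup F] [NormedSpace 𝕜 F]

/-- the tree of the lists of indices whose vectors are bounded below with bounded sums -/
def TrD (𝕜 : Type) [RCLike 𝕜] {F : Type} [NormedAddCommGroup F] [NormedSpace 𝕜 F] (d : ℕ → F)
    (C : ℕ) (s : List ℕ) : Prop :=
  s.length ≤ C ∨ ((∀ i ∈ s, 1 ≤ ‖d i‖) ∧ ∀ a : ℕ → 𝕜, (∀ j, ‖a j‖ ≤ 1) →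
    ‖∑ j ∈ Finset.range s.length, a j • d (s.getD j 0)‖ ≤ C)

theorem getD_map_range (k : ℕ → ℕ) {r j : ℕ} (h : j < r) :
    ((List.range r).map k).getD j 0 = k j := by
  rw [List.getD_eq_getElem _ _ (by simpa using h)]
  simp

theorem wft_TrD (hBP : T_BP 𝕜) (hF : ¬ HasC0 𝕜 F) (d : ℕ → F) : WFT (TrD 𝕜 d) := by
  refine ⟨fun C s h => Or.inl h, ?_, ?_⟩
  · intro C s t h
    rcases h with h | ⟨h1, h2⟩
    · left
      rw [List.length_append] at h
      omega
    · right
      refine ⟨fun i hi => h1 i (List.mem_append_left _ hi), fun a ha => ?_⟩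
      have h3 := h2 (fun j => if j < s.length then a j else 0) (by
        intro j
        show ‖(if j < s.length then a j else 0 : 𝕜)‖ ≤ 1
        split_ifs
        · exact ha j
        · rw [norm_zero]; exact zero_le_one)
      rw [List.length_append, Finset.sum_range_add] at h3
      have e1 : ∑ x ∈ Finset.range s.length,
          (if x < s.length then a x else 0 : 𝕜) • d ((s ++ t).getD x 0) =
          ∑ j ∈ Finset.range s.length, a j • d (s.getD j 0) := by
        refine Finset.sum_congr rfl fun x hx => ?_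
        rw [Finset.mem_range] at hx
        rw [if_pos hx, List.getD_append _ _ _ _ hx]
      have e2 : ∑ x ∈ Finset.range t.length,
          (if s.length + x < s.length then a (s.length + x) else 0 : 𝕜) •
            d ((s ++ t).getD (s.length + x) 0) = 0 := by
        refine Finset.sum_eq_zero fun x _ => ?_
        rw [if_neg (by omega), zero_smul]
      rw [e1, e2, add_zero] at h3
      exact h3
  · intro C k
    by_contra hcon
    push Not at hcon
    apply hF
    have hsec : ∀ r, C < r → (∀ i ∈ (List.range r).map k, 1 ≤ ‖d i‖) ∧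
        ∀ a : ℕ → 𝕜, (∀ j, ‖a j‖ ≤ 1) →
        ‖∑ j ∈ Finset.range ((List.range r).map k).length,
          a j • d (((List.range r).map k).getD j 0)‖ ≤ C := by
      intro r hr
      rcases hcon r with h | h
      · rw [List.length_map, List.length_range] at h
        omega
      · exact h
    refine hBP F (fun j => d (k j)) 1 C one_pos ?_ ?_
    · intro n
      refine (hsec (max C n + 1) (by omega)).1 _ ?_
      exact List.mem_map.2 ⟨n, List.mem_range.2 (by omega), rfl⟩
    · intro s a ha
      obtain ⟨r, hr⟩ : ∃ r, C < r ∧ ∀ i ∈ s, i < r := by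
        refine ⟨max C (s.sup id) + 1, by omega, fun i hi => ?_⟩
        have := Finset.le_sup (f := id) hi
        simp only [id] at this
        omega
      have h3 := (hsec r hr.1).2 (fun j => if j ∈ s then a j else 0) (by
        intro j
        show ‖(if j ∈ s then a j else 0 : 𝕜)‖ ≤ 1
        split_ifs with hj
        · exact ha j hj
        · rw [norm_zero]; exact zero_le_one)
      rw [List.length_map, List.length_range] at h3
      have e1 : ∑ j ∈ Finset.range r,
          (if j ∈ s then a j else 0 : 𝕜) • d (((List.range r).map k).getD j 0) =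
          ∑ i ∈ s, a i • d (k i) := by
        have hsub : s ⊆ Finset.range r := fun i hi => Finset.mem_range.2 (hr.2 i hi)
        rw [← Finset.sum_subset hsub (f := fun j =>
          (if j ∈ s then a j else 0 : 𝕜) • d (((List.range r).map k).getD j 0))]
        · refine Finset.sum_congr rfl fun i hi => ?_
          rw [if_pos hi, getD_map_range k (hr.2 i hi)]
        · intro i _ hi
          rw [if_neg hi, zero_smul]
      rw [e1] at h3
      exact h3

theorem sum_half_le (r : ℕ) (j : ℕ → ℕ) (hj : StrictMono j) :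
    ∑ l ∈ Finset.range r, (1 / 2 : ℝ) ^ (j l + 1) ≤ 1 := by
  have h1 : ∑ l ∈ Finset.range r, (1 / 2 : ℝ) ^ (j l + 1) ≤
      ∑ l ∈ Finset.range r, (1 / 2 : ℝ) ^ (l + 1) := by
    refine Finset.sum_le_sum fun l _ => ?_
    exact pow_le_pow_of_le_one (by norm_num) (by norm_num) (by have := hj.id_le l; simp at this; omega)
  have h2 : ∀ r : ℕ, ∑ l ∈ Finset.range r, (1 / 2 : ℝ) ^ (l + 1) = 1 - (1 / 2) ^ r := by
    intro r
    induction r with
    | zero => simp
    | succ r ih => rw [Finset.sum_range_succ, ih]; ring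
  rw [h2] at h1
  have : (0 : ℝ) < (1 / 2) ^ r := by positivity
  linarith

end

theorem pf_FAM (𝕜 : Type) [RCLike 𝕜] (hFHS : T_FHS) (hFSC : T_FSC) (hPTF : T_PTF)
    (hFNB : T_FNB) (hBP : T_BP 𝕜) : T_FAM 𝕜 := by
  intro F _ _ _ hF
  haveI : Nonempty F := ⟨0⟩
  obtain ⟨d, hd⟩ := TopologicalSpace.exists_dense_seq F
  have hT : WFT (TrD 𝕜 d) := wft_TrD hBP hF d
  obtain ⟨g1, g2, g3⟩ := hFSC _ hT
  refine ⟨FamT (TrD 𝕜 d), ⟨hFHS _ hT, g1, g2, g3, hPTF _ hT⟩, ?_⟩
  intro m y δ K hm hδ hy hsum
  have hδ2 : 0 < 2 / δ := by positivity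
  set c : 𝕜 := ((2 / δ : ℝ) : 𝕜) with hc
  have hcn : ‖c‖ = 2 / δ := by
    rw [hc, RCLike.norm_ofReal, abs_of_pos hδ2]
  have hY : ∀ j, 2 ≤ ‖c • y j‖ := by
    intro j
    rw [norm_smul, hcn]
    have h := mul_le_mul_of_nonneg_left (hy j) hδ2.le
    have e : 2 / δ * δ = 2 := by field_simp
    linarith
  have hk : ∀ j : ℕ, ∃ i : ℕ, ‖c • y j - d i‖ < (1 / 2 : ℝ) ^ (j + 1) := by
    intro j
    have hp : (0 : ℝ) < (1 / 2) ^ (j + 1) := by positivity
    obtain ⟨i, hi⟩ := hd.exists_dist_lt (c • y j) hp
    exact ⟨i, by rwa [← dist_eq_norm]⟩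
  choose k hk using hk
  have hdk : ∀ j, 1 ≤ ‖d (k j)‖ := by
    intro j
    have h1 : ‖c • y j‖ ≤ ‖c • y j - d (k j)‖ + ‖d (k j)‖ := by
      have := norm_add_le (c • y j - d (k j)) (d (k j))
      rwa [sub_add_cancel] at this
    have h2 : (1 / 2 : ℝ) ^ (j + 1) ≤ 1 := pow_le_one₀ (by norm_num) (by norm_num)
    have h3 := hY j
    have h4 := hk j
    linarith
  obtain ⟨C, hC⟩ := exists_nat_ge (2 / δ * K + 1)
  obtain ⟨j, r, hj, hmem, hnot⟩ := hFNB _ hT m hm k C
  apply hnot
  right
  refine ⟨?_, ?_⟩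
  · intro i hi
    obtain ⟨l, -, rfl⟩ := List.mem_map.1 hi
    exact hdk (j l)
  · intro a ha
    rw [List.length_map, List.length_range]
    have e1 : ∑ l ∈ Finset.range r,
        a l • d (((List.range r).map fun i => k (j i)).getD l 0) =
        ∑ l ∈ Finset.range r, a l • d (k (j l)) := by
      refine Finset.sum_congr rfl fun l hl => ?_
      rw [getD_map_range (fun i => k (j i)) (Finset.mem_range.1 hl)]
    rw [e1]
    -- the sum of the `Y`
    have h1 : ‖∑ l ∈ Finset.range r, a l • y (j l)‖ ≤ K := by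
      have hs : ((Finset.range r).image j).image m ∈ FamT (TrD 𝕜 d) := by
        rw [Finset.image_image]
        exact hmem
      have h := hsum _ hs (Function.extend j a 0) (by
        intro i
        by_cases hi : ∃ l, j l = i
        · obtain ⟨l, rfl⟩ := hi
          rw [hj.injective.extend_apply]
          exact ha l
        · rw [Function.extend_apply' _ _ _ hi, Pi.zero_apply, norm_zero]
          exact zero_le_one)
      rw [Finset.sum_image (fun _ _ _ _ h => hj.injective h)] at h
      have e2 : ∑ x ∈ Finset.range r, Function.extend j a 0 (j x) • y (j x) =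
          ∑ l ∈ Finset.range r, a l • y (j l) := by
        refine Finset.sum_congr rfl fun l _ => ?_
        rw [hj.injective.extend_apply]
      rw [e2] at h
      exact h
    have h2 : ∑ l ∈ Finset.range r, a l • d (k (j l)) =
        c • ∑ l ∈ Finset.range r, a l • y (j l) -
          ∑ l ∈ Finset.range r, a l • (c • y (j l) - d (k (j l))) := by
      rw [Finset.smul_sum, ← Finset.sum_sub_distrib]
      refine Finset.sum_congr rfl fun l _ => ?_
      rw [smul_sub, smul_comm c (a l)]
      abel
    have h3 : ‖∑ l ∈ Finset.range r, a l • (c • y (j l) - d (k (j l)))‖ ≤ 1 := by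
      refine (norm_sum_le_of_le _ (fun l _ => ?_)).trans (sum_half_le r j hj)
      rw [norm_smul]
      calc ‖a l‖ * ‖c • y (j l) - d (k (j l))‖ ≤ 1 * (1 / 2 : ℝ) ^ (j l + 1) :=
            mul_le_mul (ha l) (hk (j l)).le (norm_nonneg _) zero_le_one
        _ = _ := one_mul _
    rw [h2]
    refine (norm_sub_le _ _).trans ?_
    rw [norm_smul, hcn]
    have h4 := mul_le_mul_of_nonneg_left h1 hδ2.le
    linarith

end Pool.Agent.H17.WR
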